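import Mathlib

/-!
# Number fields without a primitive cube root of unity: cyclic closures of two-power degree
-/

open Polynomial

namespace Pool.Agent.TH116.AF

lemma exists_odd_factor {L : Type*} [Field L] (n : ℕ) : ∀ f : L[X], f.natDegree = n → Odd n →
    ∃ h : L[X], Irreducible h ∧ h ∣ f ∧ Odd h.natDegree := by
  induction n using Nat.strong_induction_on with
  | _ n ih =>
    intro f hf hn
    have hn0 : n ≠ 0 := by rintro rfl; exact absurd hn (by decide)
    have hf0 : f ≠ 0 := by rintro rfl; exact hn0 (by simpa using hf.symm)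
    have hfu : ¬ IsUnit f := by
      intro h
      exact hn0 (by rw [← hf]; exact natDegree_eq_zero_of_isUnit h)
    obtain ⟨h, hirr, g, rfl⟩ := WfDvdMonoid.exists_irreducible_factor hfu hf0
    by_cases hodd : Odd h.natDegree
    · exact ⟨h, hirr, dvd_mul_right h g, hodd⟩
    · have hg0 : g ≠ 0 := right_ne_zero_of_mul hf0
      rw [natDegree_mul hirr.ne_zero hg0] at hf
      have hpos : 0 < h.natDegree := hirr.natDegree_pos
      rw [Nat.not_odd_iff_even] at hodd
      have hgodd : Odd g.natDegree := by
        rw [← hf, Nat.odd_add'] at hn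
        exact hn.2 hodd
      obtain ⟨h', h1, h2, h3⟩ := ih g.natDegree (by omega) g rfl hgodd
      exact ⟨h', h1, h2.mul_left h, h3⟩

/-- A polynomial of odd degree over `L` which splits in an extension of two-power degree has a
root in `L`. -/
lemma exists_root_of_odd {L F : Type*} [Field L] [Field F] [Algebra L F] [FiniteDimensional L F]
    {a : ℕ} (ha : Module.finrank L F = 2 ^ a) (f : L[X]) (hf : Odd f.natDegree)
    (hs : (f.map (algebraMap L F)).Splits) : ∃ x : L, aeval x f = 0 := by
  obtain ⟨h, hirr, hdvd, hodd⟩ := exists_odd_factor f.natDegree f rfl hf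
  have hf0 : f ≠ 0 := by rintro rfl; exact absurd hf (by simp)
  have hs' : (h.map (algebraMap L F)).Splits :=
    hs.of_dvd ((Polynomial.map_ne_zero_iff (algebraMap L F).injective).2 hf0)
      (Polynomial.map_dvd (algebraMap L F) hdvd)
  obtain ⟨x, hx⟩ := hs'.exists_eval_eq_zero (by
    rw [degree_map]
    exact ne_of_gt (natDegree_pos_iff_degree_pos.1 hirr.natDegree_pos))
  rw [eval_map, ← aeval_def] at hx
  have hint : IsIntegral L x := Algebra.IsIntegral.isIntegral x
  have hassoc : Associated (minpoly L x) h :=
    (minpoly.irreducible hint).associated_of_dvd hirr (minpoly.dvd L x hx)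
  have hdeg : (minpoly L x).natDegree = h.natDegree :=
    natDegree_eq_of_degree_eq (degree_eq_degree_of_associated hassoc)
  have hd : (minpoly L x).natDegree ∣ 2 ^ a := by
    rw [← ha]
    exact minpoly.degree_dvd hint
  obtain ⟨k, _, hk⟩ := (Nat.dvd_prime_pow Nat.prime_two).1 hd
  have hk0 : k = 0 := by
    by_contra hk0
    rw [hdeg] at hk
    rw [hk] at hodd
    exact (Nat.not_odd_iff_even.2 ((Nat.even_pow' hk0).2 even_two)) hodd
  have h1 : (minpoly L x).natDegree = 1 := by rw [hk, hk0, pow_zero]
  obtain ⟨y, hy⟩ := minpoly.natDegree_eq_one_iff.1 h1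
  refine ⟨y, ?_⟩
  have h2 : aeval x f = 0 := by
    obtain ⟨g, rfl⟩ := hdvd
    rw [map_mul, hx, zero_mul]
  rw [← hy, aeval_algebraMap_apply] at h2
  exact (algebraMap L F).injective (by rw [h2, map_zero])

/-- Every polynomial over a number field splits in a number field which is Galois over `ℚ`. -/
lemma exists_galois (K : Type) [Field K] [NumberField K] (g : K[X]) :
    ∃ (F : Type) (_ : Field F) (_ : NumberField F) (_ : Algebra K F), IsGalois ℚ F ∧
      (g.map (algebraMap K F)).Splits := by
  have : NumberField g.SplittingField := NumberField.of_module_finite K g.SplittingField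
  have halg : Algebra.IsAlgebraic ℚ (AlgebraicClosure g.SplittingField) :=
    Algebra.IsAlgebraic.trans ℚ g.SplittingField (AlgebraicClosure g.SplittingField)
  have hac : IsAlgClosure ℚ (AlgebraicClosure g.SplittingField) := ⟨inferInstance, halg⟩
  have hnormal : Normal ℚ (AlgebraicClosure g.SplittingField) :=
    IsAlgClosure.normal ℚ (AlgebraicClosure g.SplittingField)
  have hgal : IsGalois ℚ (AlgebraicClosure g.SplittingField) := ⟨⟩
  let N := IntermediateField.normalClosure ℚ g.SplittingField (AlgebraicClosure g.SplittingField)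
  have hN : IsGalois ℚ N :=
    IsGalois.normalClosure ℚ g.SplittingField (AlgebraicClosure g.SplittingField)
  have hnf : NumberField N := ⟨⟩
  let ψ : g.SplittingField →+* N := algebraMap g.SplittingField N
  let _ : Algebra K N := (ψ.comp (algebraMap K g.SplittingField)).toAlgebra
  refine ⟨N, inferInstance, inferInstance, inferInstance, ?_, ?_⟩
  · convert hN
  · have h1 : (g.map (algebraMap K g.SplittingField)).Splits := SplittingField.splits g
    have h2 := h1.map ψ
    rw [Polynomial.map_map] at h2
    exact h2

end Pool.Agent.TH116.AF
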